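import Mathlib

/-!
Definitions for the problem MP_ca000f_co: symmetric edge polytopes, their lattice point counts,
h*-series, gamma coefficients, and the coefficients of `Z_G`.
-/

set_option autoImplicit false

open scoped Pointwise

namespace Pool.Agent.Q260.Sep

/-- The symmetric edge polytope `P_G`: the convex hull of all vectors `e_i - e_j` over ordered
pairs `(i, j)` of adjacent vertices (so both signs occur). -/
def sep {n : ℕ} (G : SimpleGraph (Fin n)) : Set (Fin n → ℝ) :=
  convexHull ℝ {v | ∃ i j, G.Adj i j ∧ v = Pi.single i 1 - Pi.single j 1}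

/-- `|k P_G ∩ ℤ^n|` -/
noncomputable def latticePoints {n : ℕ} (G : SimpleGraph (Fin n)) (k : ℕ) : ℕ :=
  Set.ncard {x : Fin n → ℤ | (fun i => (x i : ℝ)) ∈ (k : ℝ) • sep G}

/-- `(1 - t)^{d+1} ∑_k |k P_G ∩ ℤ^n| t^k` with `d = n - 1`: for connected `G` this is `h*(t)`. -/
noncomputable def hstar {n : ℕ} (G : SimpleGraph (Fin n)) : PowerSeries ℤ :=
  (1 - PowerSeries.X) ^ n * PowerSeries.mk (fun k => (latticePoints G k : ℤ))

/-- The numbers `γ_j` with `h_j = ∑_{i ≤ j} γ_i * binom(d - 2 i, j - i)`, i.e. the coefficients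
of the expansion `∑ h_j t^j = ∑_j γ_j t^j (1 + t)^{d - 2 j}` found by comparing the
coefficients of `t^j` for `j ≤ d / 2`. -/
def gammaCoeff (d : ℕ) (h : ℕ → ℤ) (j : ℕ) : ℤ :=
  h j - ∑ i : Fin j, gammaCoeff d h i * ((d - 2 * (i : ℕ)).choose (j - (i : ℕ)) : ℤ)
termination_by j

/-- `gammaCoeff` computes the gamma vector: if `p = ∑_{j ≤ d/2} g_j t^j (1 + t)^{d - 2 j}`, then
`g_j = gammaCoeff d p.coeff j` for all `j ≤ d / 2`. -/
theorem gammaCoeff_of_expansion (d : ℕ) (p : Polynomial ℤ) (g : ℕ → ℤ)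
    (hp : p = ∑ j ∈ Finset.range (d / 2 + 1),
      Polynomial.C (g j) * (Polynomial.X ^ j * (1 + Polynomial.X) ^ (d - 2 * j)))
    (j : ℕ) (hj : j ≤ d / 2) : gammaCoeff d p.coeff j = g j := by
  have hc : ∀ m, m ≤ d / 2 → p.coeff m
      = ∑ i ∈ Finset.range (m + 1), g i * ((d - 2 * i).choose (m - i) : ℤ) := by
    intro m hm
    rw [hp, Polynomial.finsetSum_coeff]
    have hsub : Finset.range (m + 1) ⊆ Finset.range (d / 2 + 1) :=
      Finset.range_subset_range.2 (by omega)
    rw [← Finset.sum_subset hsub]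
    · refine Finset.sum_congr rfl (fun i hi => ?_)
      have him : i ≤ m := by have := Finset.mem_range.1 hi; omega
      rw [Polynomial.coeff_C_mul, Polynomial.coeff_X_pow_mul', if_pos him,
        Polynomial.coeff_one_add_X_pow]
    · intro i _ hi
      have him : ¬ i ≤ m := by
        intro h
        exact hi (Finset.mem_range.2 (by omega))
      rw [Polynomial.coeff_C_mul, Polynomial.coeff_X_pow_mul', if_neg him, mul_zero]
  induction j using Nat.strong_induction_on with
  | _ j ih =>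
    rw [gammaCoeff, hc j hj, Finset.sum_range_succ, Nat.sub_self, Nat.choose_zero_right,
      Finset.sum_range]
    have : ∑ i : Fin j, gammaCoeff d p.coeff i * ((d - 2 * (i : ℕ)).choose (j - (i : ℕ)) : ℤ)
        = ∑ i : Fin j, g i * ((d - 2 * (i : ℕ)).choose (j - (i : ℕ)) : ℤ) :=
      Finset.sum_congr rfl (fun i _ => by rw [ih i i.2 (by have := i.2; omega)])
    rw [this]
    push_cast
    ring

/-- the `j`-th gamma coefficient of the h*-polynomial of `P_G` -/
noncomputable def gammaSep {n : ℕ} (G : SimpleGraph (Fin n)) (j : ℕ) : ℤ :=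
  gammaCoeff (n - 1) (fun m => PowerSeries.coeff m (hstar G)) j

/-- the `j`-th coefficient of `Z_G(t)`: the sum over the edges `e` of `G` of
`γ_j(P_G) - γ_j(P_{G ∖ e})` -/
noncomputable def zCoeff {n : ℕ} (G : SimpleGraph (Fin n)) (j : ℕ) : ℤ :=
  ∑ᶠ (e : Sym2 (Fin n)) (_ : e ∈ G.edgeSet), (gammaSep G j - gammaSep (G.deleteEdges {e}) j)

/-- 2-connected: at least three vertices, connected, and connected after the deletion of any
one vertex -/
def TwoConnected {n : ℕ} (G : SimpleGraph (Fin n)) : Prop :=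
  3 ≤ n ∧ G.Connected ∧ ∀ v : Fin n, (G.induce {v}ᶜ).Connected

end Pool.Agent.Q260.Sep
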