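import Mathlib

/-!
Integrality of flows: a real flow with integer divergence can be replaced by an integer flow
with the same divergence and no larger total absolute value.
-/

set_option autoImplicit false

namespace Pool.Agent.Q260.Sep

open Finset

/-- incidence coefficient of an edge `e` (from `s e` to `t e`) at the vertex `v` -/
def inc {V E : Type*} [DecidableEq V] (s t : E → V) (e : E) (v : V) : ℤ :=
  (if s e = v then 1 else 0) - (if t e = v then 1 else 0)

section
variable {V E : Type*} [Fintype V] [DecidableEq V] [Fintype E] [DecidableEq E]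
  (s t : E → V)

omit [Fintype V] [Fintype E] [DecidableEq E] in
theorem inc_ne_zero_iff (hst : ∀ e, s e ≠ t e) (e : E) (v : V) :
    inc s t e v ≠ 0 ↔ (s e = v ∨ t e = v) := by
  unfold inc
  have := hst e
  by_cases h1 : s e = v
  · by_cases h2 : t e = v
    · exact absurd (h1.trans h2.symm) this
    · simp [h1, h2]
  · by_cases h2 : t e = v
    · simp [h1, h2]
    · simp [h1, h2]

omit [Fintype V] [Fintype E] [DecidableEq E] in
theorem sum_inc (W : Finset V) (e : E) (h1 : s e ∈ W) (h2 : t e ∈ W) :
    ∑ v ∈ W, inc s t e v = 0 := by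
  unfold inc
  rw [Finset.sum_sub_distrib, Finset.sum_ite_eq, Finset.sum_ite_eq]
  simp [h1, h2]

/-- a nonzero circulation supported on `F` if every touched vertex has degree at least two -/
theorem exists_circulation (hst : ∀ e, s e ≠ t e) (F : Finset E) (hF : F.Nonempty)
    (hdeg : ∀ v, (∃ e ∈ F, s e = v ∨ t e = v) → 2 ≤ (F.filter (fun e => s e = v ∨ t e = v)).card) :
    ∃ z : E → ℝ, (∃ e, z e ≠ 0) ∧ (∀ e, e ∉ F → z e = 0) ∧
      ∀ v, ∑ e, z e * (inc s t e v : ℝ) = 0 := by
  classical
  set W : Finset V := F.image s ∪ F.image t with hW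
  have hsW : ∀ e ∈ F, s e ∈ W := fun e he => by
    rw [hW]; exact Finset.mem_union_left _ (Finset.mem_image_of_mem _ he)
  have htW : ∀ e ∈ F, t e ∈ W := fun e he => by
    rw [hW]; exact Finset.mem_union_right _ (Finset.mem_image_of_mem _ he)
  have hWtouch : ∀ v ∈ W, ∃ e ∈ F, s e = v ∨ t e = v := by
    intro v hv
    rw [hW, Finset.mem_union, Finset.mem_image, Finset.mem_image] at hv
    rcases hv with ⟨e, he, h⟩ | ⟨e, he, h⟩
    · exact ⟨e, he, Or.inl h⟩
    · exact ⟨e, he, Or.inr h⟩
  -- double counting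
  have hcount : W.card ≤ F.card := by
    have h1 : ∑ v ∈ W, (F.filter (fun e => s e = v ∨ t e = v)).card
        = ∑ e ∈ F, (W.filter (fun v => s e = v ∨ t e = v)).card :=
      Finset.sum_card_bipartiteAbove_eq_sum_card_bipartiteBelow (s := W) (t := F)
        (fun v e => s e = v ∨ t e = v)
    have h2 : ∑ v ∈ W, (F.filter (fun e => s e = v ∨ t e = v)).card ≥ ∑ v ∈ W, 2 :=
      Finset.sum_le_sum (fun v hv => hdeg v (hWtouch v hv))
    have h3 : ∑ e ∈ F, (W.filter (fun v => s e = v ∨ t e = v)).card ≤ ∑ e ∈ F, 2 := by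
      apply Finset.sum_le_sum
      intro e he
      calc (W.filter (fun v => s e = v ∨ t e = v)).card ≤ ({s e, t e} : Finset V).card := by
            apply Finset.card_le_card
            intro v hv
            rw [Finset.mem_filter] at hv
            rcases hv.2 with h | h
            · simp [h]
            · simp [h]
        _ ≤ 2 := Finset.card_le_two
    simp only [Finset.sum_const, smul_eq_mul] at h2 h3
    omega
  have hWne : W.Nonempty := by
    obtain ⟨e, he⟩ := hF
    exact ⟨s e, hsW e he⟩
  -- the linear map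
  let L : (F → ℝ) →ₗ[ℝ] (W → ℝ) :=
    { toFun := fun z w => ∑ e : F, z e * (inc s t e.1 w.1 : ℝ)
      map_add' := by
        intro a b; ext w
        simp [add_mul, Finset.sum_add_distrib]
      map_smul' := by
        intro c a; ext w
        simp [Finset.mul_sum, mul_assoc] }
  have hsum0 : ∀ z : F → ℝ, ∑ w : W, L z w = 0 := by
    intro z
    have : ∀ w : W, L z w = ∑ e : F, z e * (inc s t e.1 w.1 : ℝ) := fun w => rfl
    simp only [this]
    rw [Finset.sum_comm]
    apply Finset.sum_eq_zero
    intro e _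
    rw [← Finset.mul_sum]
    have h0 : ∑ w : W, (inc s t e.1 w.1 : ℝ) = 0 := by
      rw [Finset.sum_coe_sort W (fun w => (inc s t e.1 w : ℝ))]
      have := sum_inc s t W e.1 (hsW e.1 e.2) (htW e.1 e.2)
      exact_mod_cast this
    rw [h0, mul_zero]
  have hninj : ¬ Function.Injective L := by
    intro hinj
    have hle := LinearMap.finrank_le_finrank_of_injective hinj
    have hf1 : Module.finrank ℝ (F → ℝ) = F.card := by simp
    have hf2 : Module.finrank ℝ (W → ℝ) = W.card := by simp
    have heq : Module.finrank ℝ (F → ℝ) = Module.finrank ℝ (W → ℝ) := by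
      rw [hf1, hf2] at hle ⊢; omega
    have hsurj := (LinearMap.injective_iff_surjective_of_finrank_eq_finrank heq).1 hinj
    obtain ⟨z, hz⟩ := hsurj (fun _ => 1)
    have h1 := hsum0 z
    rw [hz] at h1
    simp at h1
    exact hWne.ne_empty h1
  rw [← LinearMap.ker_eq_bot] at hninj
  obtain ⟨z, hzk, hz0⟩ := (Submodule.ne_bot_iff _).1 hninj
  refine ⟨fun e => if h : e ∈ F then z ⟨e, h⟩ else 0, ?_, ?_, ?_⟩
  · by_contra hcon
    push Not at hcon
    apply hz0
    ext ⟨e, he⟩
    have := hcon e
    simpa [he] using this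
  · intro e he
    simp [he]
  · intro v
    have hsupp : ∑ e, (if h : e ∈ F then z ⟨e, h⟩ else 0) * (inc s t e v : ℝ)
        = ∑ e : F, z e * (inc s t e.1 v : ℝ) := by
      have h1 : ∑ e, (if h : e ∈ F then z ⟨e, h⟩ else 0) * (inc s t e v : ℝ)
          = ∑ e ∈ F, (if h : e ∈ F then z ⟨e, h⟩ else 0) * (inc s t e v : ℝ) := by
        symm
        apply Finset.sum_subset (Finset.subset_univ F)
        intro e _ he
        simp [he]
      rw [h1, ← Finset.sum_coe_sort F
        (fun e => (if h : e ∈ F then z ⟨e, h⟩ else 0) * (inc s t e v : ℝ))]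
      apply Finset.sum_congr rfl
      intro e _
      simp
    rw [hsupp]
    by_cases hv : v ∈ W
    · have := congrFun (LinearMap.mem_ker.1 hzk) ⟨v, hv⟩
      exact this
    · apply Finset.sum_eq_zero
      intro e _
      have : inc s t e.1 v = 0 := by
        by_contra hne
        rw [← ne_eq, inc_ne_zero_iff s t hst] at hne
        rcases hne with h | h
        · exact hv (h ▸ hsW e.1 e.2)
        · exact hv (h ▸ htW e.1 e.2)
      rw [this]; simp

/-- the non-integral support -/
noncomputable def nonint (y : E → ℝ) : Finset E := by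
  classical exact Finset.univ.filter (fun e => ¬ ∃ m : ℤ, y e = m)

omit [DecidableEq E] in
theorem mem_nonint (y : E → ℝ) (e : E) : e ∈ nonint y ↔ ¬ ∃ m : ℤ, y e = m := by
  classical
  unfold nonint
  simp

omit [Fintype V] in
/-- every vertex touched by the non-integral support is touched at least twice -/
theorem nonint_deg (hst : ∀ e, s e ≠ t e) (y : E → ℝ) (x : V → ℤ)
    (hy : ∀ v, ∑ e, y e * (inc s t e v : ℝ) = x v) (v : V)
    (hv : ∃ e ∈ nonint y, s e = v ∨ t e = v) :
    2 ≤ ((nonint y).filter (fun e => s e = v ∨ t e = v)).card := by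
  classical
  obtain ⟨e₀, he₀, hv₀⟩ := hv
  by_contra hlt
  push Not at hlt
  have hmem : e₀ ∈ (nonint y).filter (fun e => s e = v ∨ t e = v) := by
    rw [Finset.mem_filter]; exact ⟨he₀, hv₀⟩
  have hcard : ((nonint y).filter (fun e => s e = v ∨ t e = v)).card = 1 := by
    have : 0 < ((nonint y).filter (fun e => s e = v ∨ t e = v)).card :=
      Finset.card_pos.2 ⟨e₀, hmem⟩
    omega
  obtain ⟨e₁, he₁⟩ := Finset.card_eq_one.1 hcard
  have he01 : e₀ = e₁ := by rw [he₁] at hmem; simpa using hmem
  -- all other edges contribute integers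
  have hother : ∀ e, e ≠ e₀ → ∃ m : ℤ, y e * (inc s t e v : ℝ) = m := by
    intro e hne
    by_cases hin : s e = v ∨ t e = v
    · by_cases hnon : e ∈ nonint y
      · exfalso
        have : e ∈ (nonint y).filter (fun e => s e = v ∨ t e = v) := by
          rw [Finset.mem_filter]; exact ⟨hnon, hin⟩
        rw [he₁] at this
        apply hne
        rw [he01]
        simpa using this
      · rw [mem_nonint, not_not] at hnon
        obtain ⟨m, hm⟩ := hnon
        exact ⟨m * inc s t e v, by rw [hm]; push_cast; ring⟩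
    · have : inc s t e v = 0 := by
        by_contra hne'
        exact hin ((inc_ne_zero_iff s t hst e v).1 hne')
      exact ⟨0, by rw [this]; simp⟩
  choose! f hf using hother
  have hsum : y e₀ * (inc s t e₀ v : ℝ) = ((x v - ∑ e ∈ Finset.univ.erase e₀, f e : ℤ) : ℝ) := by
    have h1 := hy v
    rw [← Finset.add_sum_erase Finset.univ _ (Finset.mem_univ e₀)] at h1
    have h2 : ∑ e ∈ Finset.univ.erase e₀, y e * (inc s t e v : ℝ)
        = ∑ e ∈ Finset.univ.erase e₀, (f e : ℝ) :=
      Finset.sum_congr rfl (fun e he => hf e (Finset.ne_of_mem_erase he))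
    rw [h2] at h1
    push_cast
    linarith
  rw [mem_nonint] at he₀
  apply he₀
  have hinc : inc s t e₀ v = 1 ∨ inc s t e₀ v = -1 := by
    unfold inc
    have := hst e₀
    rcases hv₀ with h | h
    · left
      have : ¬ t e₀ = v := fun h' => this (h.trans h'.symm)
      simp [h, this]
    · right
      have : ¬ s e₀ = v := fun h' => this (h'.trans h.symm)
      simp [h, this]
  rcases hinc with h | h
  · rw [h] at hsum
    exact ⟨_, by rw [← hsum]; simp⟩
  · rw [h] at hsum
    refine ⟨-(x v - ∑ e ∈ Finset.univ.erase e₀, f e), ?_⟩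
    rw [Int.cast_neg, ← hsum]; simp

/-- one rounding step: fewer non-integral edges, same divergence, cost not larger -/
theorem round_step (hst : ∀ e, s e ≠ t e) (y : E → ℝ) (x : V → ℤ)
    (hy : ∀ v, ∑ e, y e * (inc s t e v : ℝ) = x v) (hne : (nonint y).Nonempty) :
    ∃ y' : E → ℝ, (∀ v, ∑ e, y' e * (inc s t e v : ℝ) = x v) ∧
      (nonint y').card < (nonint y).card ∧ ∑ e, |y' e| ≤ ∑ e, |y e| := by
  classical
  obtain ⟨z₀, ⟨e₁, he₁⟩, hz₀F, hz₀div⟩ := exists_circulation s t hst (nonint y) hne
    (fun v hv => nonint_deg s t hst y x hy v hv)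
  -- choose the sign
  obtain ⟨z, hzne, hzF, hzdiv, hzcost⟩ : ∃ z : E → ℝ, (∃ e, z e ≠ 0) ∧
      (∀ e, e ∉ nonint y → z e = 0) ∧ (∀ v, ∑ e, z e * (inc s t e v : ℝ) = 0) ∧
      ∑ e, SignType.sign (y e) * z e ≤ 0 := by
    by_cases hs : ∑ e, (SignType.sign (y e) : ℝ) * z₀ e ≤ 0
    · exact ⟨z₀, ⟨e₁, he₁⟩, hz₀F, hz₀div, hs⟩
    · refine ⟨fun e => - z₀ e, ⟨e₁, by simpa using he₁⟩, fun e he => by simp [hz₀F e he], ?_, ?_⟩
      · intro v
        have := hz₀div v
        simp only [neg_mul, Finset.sum_neg_distrib, this, neg_zero]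
      · push Not at hs
        simp only [mul_neg, Finset.sum_neg_distrib]
        linarith
  -- hitting times
  set τ : E → ℝ := fun e => if 0 < z e then (⌈y e⌉ - y e) / z e else (⌊y e⌋ - y e) / z e with hτ
  set Z : Finset E := Finset.univ.filter (fun e => z e ≠ 0) with hZ
  have hZne : Z.Nonempty := by
    obtain ⟨e, he⟩ := hzne
    exact ⟨e, by rw [hZ]; simp [he]⟩
  obtain ⟨m, hmZ, hmin⟩ := Finset.exists_min_image Z τ hZne
  have hZmem : ∀ e, e ∈ Z ↔ z e ≠ 0 := fun e => by rw [hZ]; simp
  have hZnon : ∀ e, z e ≠ 0 → e ∈ nonint y := by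
    intro e he
    by_contra h
    exact he (hzF e h)
  have hfl : ∀ e, e ∈ nonint y → (⌊y e⌋ : ℝ) < y e ∧ y e < ⌈y e⌉ := by
    intro e he
    rw [mem_nonint] at he
    constructor
    · exact lt_of_le_of_ne (Int.floor_le _) (fun h => he ⟨_, h.symm⟩)
    · exact lt_of_le_of_ne (Int.le_ceil _) (fun h => he ⟨_, h⟩)
  have hτpos : ∀ e, z e ≠ 0 → 0 < τ e := by
    intro e he
    have h := hfl e (hZnon e he)
    rw [hτ]
    dsimp only
    split_ifs with hpos
    · exact div_pos (by linarith) hpos
    · have : z e < 0 := lt_of_le_of_ne (not_lt.1 hpos) he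
      exact div_pos_of_neg_of_neg (by linarith) this
  set T := τ m with hT
  have hTpos : 0 < T := hτpos m ((hZmem m).1 hmZ)
  -- the moved value stays between floor and ceiling
  have hbd : ∀ e, z e ≠ 0 → (⌊y e⌋ : ℝ) ≤ y e + T * z e ∧ y e + T * z e ≤ ⌈y e⌉ := by
    intro e he
    have h := hfl e (hZnon e he)
    have hle : T ≤ τ e := hmin e ((hZmem e).2 he)
    rw [hτ] at hle
    dsimp only at hle
    split_ifs at hle with hpos
    · have h1 : T * z e ≤ ⌈y e⌉ - y e := by
        rwa [le_div_iff₀ hpos] at hle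
      have h2 : 0 < T * z e := mul_pos hTpos hpos
      constructor <;> linarith
    · have hneg : z e < 0 := lt_of_le_of_ne (not_lt.1 hpos) he
      have h1 : ⌊y e⌋ - y e ≤ T * z e := by
        rwa [le_div_iff_of_neg hneg] at hle
      have h2 : T * z e < 0 := mul_neg_of_pos_of_neg hTpos hneg
      constructor <;> linarith
  have hcost1 : ∀ e, |y e + T * z e| = |y e| + T * (SignType.sign (y e) * z e) := by
    intro e
    by_cases he : z e = 0
    · simp [he]
    · have h := hfl e (hZnon e he)
      have hb := hbd e he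
      rcases lt_trichotomy (y e) 0 with hy0 | hy0 | hy0
      · have hc : (⌈y e⌉ : ℝ) ≤ 0 := by
          have : ⌈y e⌉ ≤ 0 := Int.ceil_le.2 (by simpa using hy0.le)
          exact_mod_cast this
        rw [sign_neg hy0, abs_of_neg hy0, abs_of_nonpos (by linarith)]
        simp
        ring
      · exfalso
        have := hZnon e he
        rw [mem_nonint] at this
        exact this ⟨0, by simpa using hy0⟩
      · have hc : (0 : ℝ) ≤ ⌊y e⌋ := by
          have : 0 ≤ ⌊y e⌋ := Int.floor_nonneg.2 hy0.le
          exact_mod_cast this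
        rw [sign_pos hy0, abs_of_pos hy0, abs_of_nonneg (by linarith)]
        simp
  refine ⟨fun e => y e + T * z e, ?_, ?_, ?_⟩
  · intro v
    have h1 := hy v
    have h2 := hzdiv v
    have : ∑ e, (y e + T * z e) * (inc s t e v : ℝ)
        = ∑ e, y e * (inc s t e v : ℝ) + T * ∑ e, z e * (inc s t e v : ℝ) := by
      rw [Finset.mul_sum, ← Finset.sum_add_distrib]
      exact Finset.sum_congr rfl (fun e _ => by ring)
    rw [this, h1, h2]; simp
  · apply Finset.card_lt_card
    rw [Finset.ssubset_iff_of_subset]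
    · refine ⟨m, hZnon m ((hZmem m).1 hmZ), ?_⟩
      rw [mem_nonint, not_not]
      have hzm : z m ≠ 0 := (hZmem m).1 hmZ
      have : T = τ m := hT
      rw [this, hτ]
      dsimp only
      split_ifs with hpos
      · exact ⟨⌈y m⌉, by rw [div_mul_cancel₀ _ hzm]; ring⟩
      · exact ⟨⌊y m⌋, by rw [div_mul_cancel₀ _ hzm]; ring⟩
    · intro e he
      by_contra h
      have hz0 := hzF e h
      rw [mem_nonint] at he h
      push Not at h
      obtain ⟨k, hk⟩ := h
      exact he ⟨k, by simp [hz0, hk]⟩
  · have : ∑ e, |y e + T * z e| = ∑ e, |y e| + T * ∑ e, SignType.sign (y e) * z e := by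
      rw [Finset.mul_sum, ← Finset.sum_add_distrib]
      exact Finset.sum_congr rfl (fun e _ => hcost1 e)
    rw [this]
    have := mul_nonpos_of_nonneg_of_nonpos hTpos.le hzcost
    linarith

/-- **integrality of minimum cost flows** -/
theorem exists_int_flow (hst : ∀ e, s e ≠ t e) (x : V → ℤ) :
    ∀ (N : ℕ) (y : E → ℝ), (nonint y).card = N →
      (∀ v, ∑ e, y e * (inc s t e v : ℝ) = x v) →
      ∃ w : E → ℤ, (∀ v, ∑ e, w e * inc s t e v = x v) ∧ ((∑ e, |w e| : ℤ) : ℝ) ≤ ∑ e, |y e| := by
  intro N
  induction N using Nat.strong_induction_on with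
  | _ N ih =>
    intro y hN hy
    by_cases hne : (nonint y).Nonempty
    · obtain ⟨y', h1, h2, h3⟩ := round_step s t hst y x hy hne
      obtain ⟨w, hw1, hw2⟩ := ih _ (by omega) y' rfl h1
      exact ⟨w, hw1, hw2.trans h3⟩
    · rw [Finset.not_nonempty_iff_eq_empty] at hne
      have hint : ∀ e, ∃ m : ℤ, y e = m := by
        intro e
        by_contra h
        have : e ∈ nonint y := (mem_nonint y e).2 h
        rw [hne] at this
        simp at this
      choose w hw using hint
      refine ⟨w, ?_, ?_⟩
      · intro v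
        have := hy v
        simp only [hw] at this
        exact_mod_cast this
      · push_cast
        simp only [hw]
        exact le_refl _
end

end Pool.Agent.Q260.Sep
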