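import Mathlib
import Pool.Agent.Q260.Sep.Flow
import Pool.Agent.Q260.Sep.Defs

/-!
The lattice points of `k P_G` are the sums of `k` vectors from `{0} ∪ {e_i - e_j : i ~ j}`.
-/

set_option autoImplicit false

open scoped Pointwise

namespace Pool.Agent.Q260.Sep

variable {n : ℕ} (G : SimpleGraph (Fin n))

/-- the edges, oriented upwards -/
abbrev OE : Type := {p : Fin n × Fin n // p.1 < p.2 ∧ G.Adj p.1 p.2}

noncomputable instance : Fintype (OE G) := Fintype.ofFinite _

/-- source -/
def src (e : OE G) : Fin n := e.1.1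
/-- target -/
def tgt (e : OE G) : Fin n := e.1.2

theorem src_ne_tgt (e : OE G) : src G e ≠ tgt G e := ne_of_lt e.2.1

/-- the steps -/
def steps : Set (Fin n → ℤ) :=
  {v | v = 0 ∨ ∃ i j, G.Adj i j ∧ v = Pi.single i 1 - Pi.single j 1}

/-- the `k`-fold sums of steps -/
def ball : ℕ → Set (Fin n → ℤ)
  | 0 => {0}
  | k + 1 => {z | ∃ x ∈ ball k, ∃ s ∈ steps G, z = x + s}

theorem zero_mem_ball (k : ℕ) : (0 : Fin n → ℤ) ∈ ball G k := by
  induction k with
  | zero => simp [ball]
  | succ k ih => exact ⟨0, ih, 0, Or.inl rfl, by simp⟩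

theorem inc_eq (e : OE G) (v : Fin n) :
    inc (src G) (tgt G) e v
      = ((Pi.single (src G e) 1 - Pi.single (tgt G e) 1 : Fin n → ℤ)) v := by
  unfold inc
  simp only [Pi.sub_apply, Pi.single_apply]
  congr 1
  · exact if_congr eq_comm rfl rfl
  · exact if_congr eq_comm rfl rfl

theorem flow_mem_ball : ∀ (k : ℕ) (w : OE G → ℤ), ∑ e, |w e| ≤ (k : ℤ) →
    (fun v => ∑ e, w e * inc (src G) (tgt G) e v) ∈ ball G k := by
  classical
  intro k
  induction k with
  | zero =>
    intro w hw
    have h0 : ∀ e, w e = 0 := by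
      intro e
      have h1 : |w e| ≤ ∑ e, |w e| :=
        Finset.single_le_sum (f := fun e => |w e|) (fun e _ => abs_nonneg _) (Finset.mem_univ e)
      have h2 := abs_nonneg (w e)
      have h3 : |w e| = 0 := by push_cast at hw; omega
      exact abs_eq_zero.1 h3
    have : (fun v => ∑ e, w e * inc (src G) (tgt G) e v) = 0 := by
      ext v
      simp [h0]
    rw [this]
    exact zero_mem_ball G 0
  | succ k ih =>
    intro w hw
    by_cases h0 : ∀ e, w e = 0
    · have : (fun v => ∑ e, w e * inc (src G) (tgt G) e v) = 0 := by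
        ext v
        simp [h0]
      rw [this]
      exact zero_mem_ball G _
    · push Not at h0
      obtain ⟨e₀, he₀⟩ := h0
      set w' : OE G → ℤ := fun e => w e - (if e = e₀ then (w e₀).sign else 0) with hw'
      have habs : ∀ e, |w' e| = |w e| - (if e = e₀ then 1 else 0) := by
        intro e
        rw [hw']
        dsimp only
        split_ifs with h
        · subst h
          rcases lt_trichotomy (w e) 0 with h1 | h1 | h1
          · rw [Int.sign_eq_neg_one_of_neg h1, abs_of_neg h1, abs_of_nonpos (by omega)]; ring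
          · exact absurd h1 he₀
          · rw [Int.sign_eq_one_of_pos h1, abs_of_pos h1, abs_of_nonneg (by omega)]
        · simp
      have hsum : ∑ e, |w' e| ≤ (k : ℤ) := by
        simp only [habs, Finset.sum_sub_distrib, Finset.sum_ite_eq', Finset.mem_univ, if_true]
        push_cast at hw
        omega
      have hb := ih w' hsum
      refine ⟨_, hb, (w e₀).sign • (Pi.single (src G e₀) 1 - Pi.single (tgt G e₀) 1), ?_, ?_⟩
      · right
        rcases lt_trichotomy (w e₀) 0 with h1 | h1 | h1
        · refine ⟨tgt G e₀, src G e₀, e₀.2.2.symm, ?_⟩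
          rw [Int.sign_eq_neg_one_of_neg h1]
          simp
        · exact absurd h1 he₀
        · refine ⟨src G e₀, tgt G e₀, e₀.2.2, ?_⟩
          rw [Int.sign_eq_one_of_pos h1]
          simp
      · ext v
        rw [Pi.add_apply, Pi.smul_apply, ← inc_eq]
        rw [hw']
        simp only [sub_mul, Finset.sum_sub_distrib, ite_mul, zero_mul, Finset.sum_ite_eq',
          Finset.mem_univ, if_true, smul_eq_mul]
        ring

/-- the convex set of divergences of real flows of cost at most one -/
def flowBody : Set (Fin n → ℝ) :=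
  {u | ∃ y : OE G → ℝ, ∑ e, |y e| ≤ 1 ∧ ∀ v, ∑ e, y e * (inc (src G) (tgt G) e v : ℝ) = u v}

theorem convex_flowBody : Convex ℝ (flowBody G) := by
  intro u₁ ⟨y₁, hy₁, hu₁⟩ u₂ ⟨y₂, hy₂, hu₂⟩ a b ha hb hab
  refine ⟨fun e => a * y₁ e + b * y₂ e, ?_, ?_⟩
  · calc ∑ e, |a * y₁ e + b * y₂ e| ≤ ∑ e, (a * |y₁ e| + b * |y₂ e|) := by
          apply Finset.sum_le_sum
          intro e _
          calc |a * y₁ e + b * y₂ e| ≤ |a * y₁ e| + |b * y₂ e| := abs_add_le _ _
            _ = a * |y₁ e| + b * |y₂ e| := by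
              rw [abs_mul, abs_mul, abs_of_nonneg ha, abs_of_nonneg hb]
      _ = a * ∑ e, |y₁ e| + b * ∑ e, |y₂ e| := by
          rw [Finset.sum_add_distrib, Finset.mul_sum, Finset.mul_sum]
      _ ≤ a * 1 + b * 1 := by gcongr
      _ = 1 := by rw [mul_one, mul_one, hab]
  · intro v
    rw [Pi.add_apply, Pi.smul_apply, Pi.smul_apply, ← hu₁, ← hu₂, smul_eq_mul, smul_eq_mul,
      Finset.mul_sum, Finset.mul_sum, ← Finset.sum_add_distrib]
    exact Finset.sum_congr rfl (fun e _ => by ring)

theorem sep_subset_flowBody : sep G ⊆ flowBody G := by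
  classical
  apply convexHull_min _ (convex_flowBody G)
  rintro u ⟨i, j, hij, rfl⟩
  have key : ∀ (e₀ : OE G) (c : ℝ), |c| ≤ 1 →
      (fun v => c * (inc (src G) (tgt G) e₀ v : ℝ)) ∈ flowBody G := by
    intro e₀ c hc
    refine ⟨fun e => if e = e₀ then c else 0, ?_, ?_⟩
    · have : ∀ e : OE G, |(if e = e₀ then c else 0)| = if e = e₀ then |c| else 0 := by
        intro e; split_ifs <;> simp
      simp only [this, Finset.sum_ite_eq', Finset.mem_univ, if_true]
      exact hc
    · intro v
      simp [Finset.sum_ite_eq', ite_mul]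
  rcases lt_trichotomy i j with h | h | h
  · have := key ⟨(i, j), h, hij⟩ 1 (by simp)
    convert this using 1
    ext v
    rw [inc_eq]
    simp [src, tgt, Pi.single_apply]
  · exact absurd h hij.ne
  · have := key ⟨(j, i), h, hij.symm⟩ (-1) (by simp)
    convert this using 1
    ext v
    rw [inc_eq]
    simp [src, tgt, Pi.single_apply]

theorem mem_ball_of_mem (k : ℕ) (x : Fin n → ℤ)
    (hx : (fun i => (x i : ℝ)) ∈ (k : ℝ) • sep G) : x ∈ ball G k := by
  classical
  obtain ⟨u, hu, hxu⟩ := hx
  obtain ⟨y, hy1, hy2⟩ := sep_subset_flowBody G hu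
  have hdiv : ∀ v, ∑ e, ((k : ℝ) * y e) * (inc (src G) (tgt G) e v : ℝ) = x v := by
    intro v
    have h1 := congrFun hxu v
    simp only [Pi.smul_apply, smul_eq_mul] at h1
    rw [← h1, ← hy2 v, Finset.mul_sum]
    exact Finset.sum_congr rfl (fun e _ => by ring)
  obtain ⟨w, hw1, hw2⟩ := exists_int_flow (src G) (tgt G) (src_ne_tgt G) x _
    (fun e => (k : ℝ) * y e) rfl hdiv
  have hcost : ∑ e, |(k : ℝ) * y e| ≤ k := by
    simp only [abs_mul, ← Finset.mul_sum, Nat.abs_cast]
    calc (k : ℝ) * ∑ e, |y e| ≤ k * 1 := by gcongr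
      _ = k := mul_one _
  have hw3 : ∑ e, |w e| ≤ (k : ℤ) := by
    have := hw2.trans hcost
    exact_mod_cast this
  have := flow_mem_ball G k w hw3
  have hxe : (fun v => ∑ e, w e * inc (src G) (tgt G) e v) = x := by
    ext v; exact hw1 v
  rwa [hxe] at this

theorem mem_of_mem_ball (hG : ∃ i j, G.Adj i j) (k : ℕ) (x : Fin n → ℤ) (hx : x ∈ ball G k) :
    (fun i => (x i : ℝ)) ∈ (k : ℝ) • sep G := by
  have hconv : Convex ℝ (sep G) := convex_convexHull ℝ _
  have hmem : ∀ i j, G.Adj i j → ((Pi.single i 1 - Pi.single j 1 : Fin n → ℝ)) ∈ sep G :=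
    fun i j h => subset_convexHull ℝ _ ⟨i, j, h, rfl⟩
  have h0 : (0 : Fin n → ℝ) ∈ sep G := by
    obtain ⟨i, j, h⟩ := hG
    have := hconv (hmem i j h) (hmem j i h.symm) (a := 1 / 2) (b := 1 / 2)
      (by norm_num) (by norm_num) (by norm_num)
    convert this using 1
    rw [← smul_add]
    simp
  induction k generalizing x with
  | zero =>
    simp only [ball, Set.mem_singleton_iff] at hx
    subst hx
    refine ⟨0, h0, ?_⟩
    ext i; simp
  | succ k ih =>
    obtain ⟨x', hx', s, hs, rfl⟩ := hx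
    have h1 := ih x' hx'
    have h2 : (fun i => (s i : ℝ)) ∈ (1 : ℝ) • sep G := by
      rw [one_smul]
      rcases hs with rfl | ⟨i, j, hij, rfl⟩
      · convert h0 using 1
        ext i; simp
      · convert hmem i j hij using 1
        ext v
        simp only [Pi.sub_apply, Pi.single_apply]
        push_cast
        rfl
    have h3 : ((k + 1 : ℕ) : ℝ) • sep G = (k : ℝ) • sep G + (1 : ℝ) • sep G := by
      push_cast
      exact hconv.add_smul (by positivity) (by norm_num)
    rw [h3]
    refine Set.mem_add.2 ⟨_, h1, _, h2, ?_⟩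
    ext i
    simp

theorem latticePoints_eq (hG : ∃ i j, G.Adj i j) (k : ℕ) :
    latticePoints G k = (ball G k).ncard := by
  unfold latticePoints
  congr 1
  ext x
  exact ⟨mem_ball_of_mem G k x, mem_of_mem_ball G hG k x⟩

end Pool.Agent.Q260.Sep
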