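import Mathlib
import Pool.Agent.Q260.Sep.Ball

/-!
Counting the `k`-fold sums of steps with a bit mask: a vector is coded by the value of a linear
form, a set of vectors by a natural number whose binary digits mark the codes.
-/

set_option autoImplicit false

namespace Pool.Agent.Q260.Sep

/-! ### population count -/

/-- the number with `K` ones at distance 32 is computed by a division -/
theorem geom_block (a K : ℕ) (h : a = 32 * K) :
    (2 ^ a - 1) / (2 ^ 32 - 1) = ∑ i ∈ Finset.range K, (2 ^ 32) ^ i := by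
  rw [Nat.geomSum_eq (by norm_num) K, ← pow_mul, h]

/-- block mask -/
def blockMask : ℕ := (2 ^ 2329600 - 1) / (2 ^ 32 - 1)

theorem blockMask_eq : blockMask = ∑ i ∈ Finset.range 72800, (2 ^ 32) ^ i :=
  geom_block 2329600 72800 (by norm_num)

/-- sum of 32-bit block digits -/
def digSum (A : ℕ) : ℕ → ℕ
  | 0 => 0
  | j + 1 => digSum A j + ((A >>> j) &&& blockMask) % (2 ^ 32 - 1)

/-- population count -/
def pop (A : ℕ) : ℕ := digSum A 32

theorem blockSum_lt (b : ℕ → Bool) (K : ℕ) :
    ∑ i ∈ Finset.range K, (b i).toNat * (2 ^ 32) ^ i < (2 ^ 32) ^ K := by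
  induction K with
  | zero => simp
  | succ K ih =>
    rw [Finset.sum_range_succ, pow_succ (2 ^ 32) K]
    have h1 : (b K).toNat * (2 ^ 32) ^ K ≤ 1 * (2 ^ 32) ^ K :=
      Nat.mul_le_mul_right _ (Bool.toNat_le _)
    generalize (2 ^ 32) ^ K = P at *
    omega

theorem testBit_blockSum (b : ℕ → Bool) (K m : ℕ) :
    (∑ i ∈ Finset.range K, (b i).toNat * (2 ^ 32) ^ i).testBit m
      = (decide (m % 32 = 0) && decide (m / 32 < K) && b (m / 32)) := by
  induction K with
  | zero => simp
  | succ K ih =>
    rw [Finset.sum_range_succ]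
    have hlt := blockSum_lt b K
    rw [← pow_mul] at hlt
    have heq : ∑ i ∈ Finset.range K, (b i).toNat * (2 ^ 32) ^ i + (b K).toNat * (2 ^ 32) ^ K
        = 2 ^ (32 * K) * (b K).toNat + ∑ i ∈ Finset.range K, (b i).toNat * (2 ^ 32) ^ i := by
      rw [← pow_mul]; ring
    rw [heq, Nat.testBit_two_pow_mul_add _ hlt]
    split_ifs with h
    · rw [ih]
      have h1 : m / 32 < K := by omega
      have h2 : m / 32 < K + 1 := by omega
      simp [h1, h2]
    · by_cases hm : m = 32 * K
      · subst hm
        have h1 : 32 * K % 32 = 0 := by omega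
        have h2 : 32 * K / 32 = K := by omega
        rw [h1, h2]
        simp only [Nat.sub_self, decide_true, Nat.lt_succ_self, Bool.true_and]
        cases b K <;> simp
      · have h3 : (b K).toNat.testBit (m - 32 * K) = false := by
          have h4 : m - 32 * K ≠ 0 := by omega
          apply Nat.testBit_lt_two_pow
          have : (b K).toNat ≤ 1 := Bool.toNat_le _
          have h5 : 2 ^ 1 ≤ 2 ^ (m - 32 * K) := Nat.pow_le_pow_right (by norm_num) (by omega)
          omega
        rw [h3]
        symm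
        by_cases h6 : m % 32 = 0
        · have h7 : ¬ m / 32 < K + 1 := by omega
          simp [h7]
        · simp [h6]

theorem blockSum_mod (b : ℕ → Bool) (K : ℕ) (hK : K < 2 ^ 32 - 1) :
    (∑ i ∈ Finset.range K, (b i).toNat * (2 ^ 32) ^ i) % (2 ^ 32 - 1)
      = ∑ i ∈ Finset.range K, (b i).toNat := by
  have h1 : (∑ i ∈ Finset.range K, (b i).toNat * (2 ^ 32) ^ i)
      ≡ ∑ i ∈ Finset.range K, (b i).toNat [MOD (2 ^ 32 - 1)] := by
    induction K with
    | zero => simp; rfl
    | succ K ih =>
      rw [Finset.sum_range_succ, Finset.sum_range_succ]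
      apply Nat.ModEq.add (ih (by omega))
      have h2 : (2 ^ 32) ^ K ≡ 1 ^ K [MOD (2 ^ 32 - 1)] :=
        Nat.ModEq.pow K (by norm_num [Nat.ModEq])
      rw [one_pow] at h2
      simpa using Nat.ModEq.mul_left (b K).toNat h2
  have h3 : ∑ i ∈ Finset.range K, (b i).toNat ≤ K := by
    calc ∑ i ∈ Finset.range K, (b i).toNat ≤ ∑ i ∈ Finset.range K, 1 :=
          Finset.sum_le_sum (fun i _ => Bool.toNat_le _)
      _ = K := by simp
  rw [h1]
  exact Nat.mod_eq_of_lt (by omega)

theorem and_block (A j K : ℕ) :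
    (A >>> j) &&& (∑ i ∈ Finset.range K, (2 ^ 32) ^ i)
      = ∑ i ∈ Finset.range K, (A.testBit (j + 32 * i)).toNat * (2 ^ 32) ^ i := by
  apply Nat.eq_of_testBit_eq
  intro m
  have h1 : ∑ i ∈ Finset.range K, (2 ^ 32) ^ i
      = ∑ i ∈ Finset.range K, (true).toNat * (2 ^ 32) ^ i := by simp
  rw [h1, Nat.testBit_and, testBit_blockSum (fun _ => true), Nat.testBit_shiftRight,
    testBit_blockSum (fun i => A.testBit (j + 32 * i))]
  by_cases h6 : m % 32 = 0
  · have : j + 32 * (m / 32) = j + m := by omega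
    rw [this]
    by_cases h7 : m / 32 < K
    · simp [h6, h7]
    · simp [h7]
  · simp [h6]

theorem digSum_eq (A J : ℕ) :
    digSum A J = ∑ j ∈ Finset.range J, ∑ i ∈ Finset.range 72800,
      (A.testBit (j + 32 * i)).toNat := by
  induction J with
  | zero => simp [digSum]
  | succ J ih =>
    rw [digSum, ih, Finset.sum_range_succ, blockMask_eq, and_block,
      blockSum_mod (fun i => A.testBit (J + 32 * i)) 72800 (by norm_num)]

theorem sum_blocks (f : ℕ → ℕ) (B K : ℕ) :
    ∑ j ∈ Finset.range B, ∑ i ∈ Finset.range K, f (j + B * i)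
      = ∑ m ∈ Finset.range (B * K), f m := by
  rw [Finset.sum_comm]
  induction K with
  | zero => simp
  | succ K ih =>
    rw [Finset.sum_range_succ, ih, Nat.mul_succ, Finset.sum_range_add]
    congr 1
    exact Finset.sum_congr rfl (fun j _ => by rw [Nat.add_comm])

theorem pop_eq (A : ℕ) :
    pop A = ((Finset.range (32 * 72800)).filter (fun m => A.testBit m = true)).card := by
  have h := sum_blocks (fun m => (A.testBit m).toNat) 32 72800
  rw [pop, digSum_eq, h]
  generalize 32 * 72800 = N
  rw [Finset.card_filter]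
  refine Finset.sum_congr rfl (fun m _ => ?_)
  cases A.testBit m <;> simp

/-! ### sumsets by shifts -/

/-- union of the shifts of `A` -/
def orShift (A : ℕ) : List ℕ → ℕ
  | [] => 0
  | c :: cs => (A <<< c) ||| orShift A cs

theorem testBit_orShift (A : ℕ) (cs : List ℕ) (m : ℕ) :
    (orShift A cs).testBit m = true ↔ ∃ c ∈ cs, c ≤ m ∧ A.testBit (m - c) = true := by
  induction cs with
  | nil => simp [orShift]
  | cons c cs ih =>
    rw [orShift, Nat.testBit_or, Bool.or_eq_true, ih, Nat.testBit_shiftLeft]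
    simp only [List.mem_cons, exists_eq_or_imp, Bool.and_eq_true, decide_eq_true_eq, ge_iff_le]

/-- codes of the steps -/
def codes (W : Fin 9 → ℕ) (D : ℕ) (L : List (Fin 9 × Fin 9)) : List ℕ :=
  D :: L.flatMap (fun p => [D + W p.1 - W p.2, D + W p.2 - W p.1])

/-- the bit mask of the `k`-fold sums -/
def mask (W : Fin 9 → ℕ) (D : ℕ) (L : List (Fin 9 × Fin 9)) : ℕ → ℕ
  | 0 => 1
  | k + 1 => orShift (mask W D L k) (codes W D L)

/-- code of a vector at level `k` -/
def zcode (W : Fin 9 → ℕ) (D : ℕ) (k : ℕ) (x : Fin 9 → ℤ) : ℤ := ∑ i : Fin 9, x i * W i + k * D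

variable {W : Fin 9 → ℕ} {D : ℕ}

theorem zcode_add (k : ℕ) (x s : Fin 9 → ℤ) :
    zcode W D (k + 1) (x + s) = zcode W D k x + zcode W D 1 s := by
  unfold zcode
  simp only [Pi.add_apply, add_mul, Finset.sum_add_distrib]
  push_cast
  ring

theorem zcode_one_zero : zcode W D 1 0 = D := by
  unfold zcode
  simp

theorem zcode_one_step (i j : Fin 9) :
    zcode W D 1 (Pi.single i 1 - Pi.single j 1) = D + W i - W j := by
  unfold zcode
  simp only [Pi.sub_apply, Pi.single_apply, Nat.cast_one, sub_mul, one_mul,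
    Finset.sum_sub_distrib, ite_mul, zero_mul, Finset.sum_ite_eq', Finset.mem_univ, if_true]
  ring

variable {G : SimpleGraph (Fin 9)}

/-- the weights differ by at most `D` along every edge -/
def Fits (G : SimpleGraph (Fin 9)) (W : Fin 9 → ℕ) (D : ℕ) : Prop :=
  ∀ i j, G.Adj i j → W j ≤ D + W i

theorem ball_bound (k : ℕ) (x : Fin 9 → ℤ) (hx : x ∈ ball G k) :
    ∀ i, -(k : ℤ) ≤ x i ∧ x i ≤ k := by
  induction k generalizing x with
  | zero =>
    simp only [ball, Set.mem_singleton_iff] at hx
    subst hx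
    simp
  | succ k ih =>
    obtain ⟨x', hx', s, hs, rfl⟩ := hx
    have h1 := ih x' hx'
    have h3 : ∀ i, -1 ≤ s i ∧ s i ≤ 1 := by
      rcases hs with rfl | ⟨a, b, hab, rfl⟩
      · simp
      · intro i
        simp only [Pi.sub_apply, Pi.single_apply]
        split_ifs <;> norm_num
    intro i
    have := h1 i
    have := h3 i
    simp only [Pi.add_apply]
    push_cast
    omega

theorem ball_finite (k : ℕ) : (ball G k).Finite := by
  apply (Set.finite_Icc (fun _ : Fin 9 => -(k : ℤ)) (fun _ => (k : ℤ))).subset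
  intro x hx
  have h := ball_bound k x hx
  exact ⟨fun i => (h i).1, fun i => (h i).2⟩

theorem ball_mono {H : SimpleGraph (Fin 9)} (hHG : H ≤ G) {k l : ℕ} (hkl : k ≤ l) :
    ball H k ⊆ ball G l := by
  have h1 : ∀ k, ball H k ⊆ ball G k := by
    intro k
    induction k with
    | zero => exact subset_refl _
    | succ k ih =>
      rintro _ ⟨x, hx, s, hs, rfl⟩
      refine ⟨x, ih hx, s, ?_, rfl⟩
      rcases hs with h | ⟨i, j, hij, h⟩
      · exact Or.inl h
      · exact Or.inr ⟨i, j, hHG hij, h⟩
  have h2 : ball G k ⊆ ball G l := by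
    induction l, hkl using Nat.le_induction with
    | base => exact subset_refl _
    | succ l _ ih => exact fun x hx => ⟨x, ih hx, 0, Or.inl rfl, by simp⟩
  exact (h1 k).trans h2

theorem zcode_bound (hW : Fits G W D) (k : ℕ) (x : Fin 9 → ℤ) (hx : x ∈ ball G k) :
    0 ≤ zcode W D k x ∧ zcode W D k x ≤ 2 * k * D := by
  induction k generalizing x with
  | zero =>
    simp only [ball, Set.mem_singleton_iff] at hx
    subst hx
    simp [zcode]
  | succ k ih =>
    obtain ⟨x', hx', s, hs, rfl⟩ := hx
    have h1 := ih x' hx'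
    have h3 : 0 ≤ zcode W D 1 s ∧ zcode W D 1 s ≤ 2 * D := by
      rcases hs with rfl | ⟨a, b, hab, rfl⟩
      · rw [zcode_one_zero]; omega
      · rw [zcode_one_step]
        have h4 := hW a b hab
        have h5 := hW b a hab.symm
        omega
    rw [zcode_add]
    push_cast
    constructor
    · omega
    · nlinarith [h1.2, h3.2]

/-- `L` lists the edges of `G` -/
def Lists (G : SimpleGraph (Fin 9)) (L : List (Fin 9 × Fin 9)) : Prop :=
  ∀ i j, G.Adj i j ↔ ((i, j) ∈ L ∨ (j, i) ∈ L)

theorem code_of_step {L : List (Fin 9 × Fin 9)} (hW : Fits G W D) (hL : Lists G L)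
    (s : Fin 9 → ℤ) (hs : s ∈ steps G) : ∃ c ∈ codes W D L, (c : ℤ) = zcode W D 1 s := by
  rcases hs with rfl | ⟨i, j, hij, rfl⟩
  · exact ⟨D, by simp [codes], zcode_one_zero.symm⟩
  · have h1 := hW i j hij
    have h2 : ((D + W i - W j : ℕ) : ℤ) = D + W i - W j := by
      rw [Nat.cast_sub (by omega)]; push_cast; ring
    refine ⟨D + W i - W j, ?_, by rw [zcode_one_step, h2]⟩
    rw [codes, List.mem_cons, List.mem_flatMap]
    right
    rcases (hL i j).1 hij with h | h
    · exact ⟨(i, j), h, by simp⟩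
    · exact ⟨(j, i), h, by simp⟩

theorem step_of_code {L : List (Fin 9 × Fin 9)} (hW : Fits G W D) (hL : Lists G L) (c : ℕ)
    (hc : c ∈ codes W D L) : ∃ s ∈ steps G, (c : ℤ) = zcode W D 1 s := by
  rw [codes, List.mem_cons, List.mem_flatMap] at hc
  rcases hc with rfl | ⟨⟨i, j⟩, hp, hc⟩
  · exact ⟨0, Or.inl rfl, zcode_one_zero.symm⟩
  · have hij : G.Adj i j := (hL i j).2 (Or.inl hp)
    have h1 := hW i j hij
    have h2 := hW j i hij.symm
    simp only [List.mem_cons, List.not_mem_nil, or_false] at hc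
    rcases hc with rfl | rfl
    · refine ⟨Pi.single i 1 - Pi.single j 1, Or.inr ⟨i, j, hij, rfl⟩, ?_⟩
      rw [zcode_one_step, Nat.cast_sub (by omega)]; push_cast; ring
    · refine ⟨Pi.single j 1 - Pi.single i 1, Or.inr ⟨j, i, hij.symm, rfl⟩, ?_⟩
      rw [zcode_one_step, Nat.cast_sub (by omega)]; push_cast; ring

theorem testBit_mask {L : List (Fin 9 × Fin 9)} (hW : Fits G W D) (hL : Lists G L) (k m : ℕ) :
    (mask W D L k).testBit m = true ↔ ∃ x ∈ ball G k, zcode W D k x = (m : ℤ) := by
  induction k generalizing m with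
  | zero =>
    rw [mask]
    constructor
    · intro h
      have : m = 0 := by
        by_contra hne
        rw [Nat.testBit_lt_two_pow] at h
        · exact Bool.noConfusion h
        · exact Nat.one_lt_two_pow hne
      subst this
      exact ⟨0, zero_mem_ball G 0, by simp [zcode]⟩
    · rintro ⟨x, hx, hm⟩
      simp only [ball, Set.mem_singleton_iff] at hx
      subst hx
      have : m = 0 := by
        have : (m : ℤ) = 0 := by rw [← hm]; simp [zcode]
        exact_mod_cast this
      subst this
      simp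
  | succ k ih =>
    rw [mask, testBit_orShift]
    constructor
    · rintro ⟨c, hc, hcm, hbit⟩
      obtain ⟨s, hs, hcs⟩ := step_of_code hW hL c hc
      obtain ⟨x, hx, hxm⟩ := (ih (m - c)).1 hbit
      refine ⟨x + s, ⟨x, hx, s, hs, rfl⟩, ?_⟩
      rw [zcode_add, hxm, ← hcs]
      push_cast [Nat.cast_sub hcm]
      ring
    · rintro ⟨_, ⟨x, hx, s, hs, rfl⟩, hm⟩
      obtain ⟨c, hc, hcs⟩ := code_of_step hW hL s hs
      have h0 := (zcode_bound hW k x hx).1
      rw [zcode_add, ← hcs] at hm
      have hcm : c ≤ m := by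
        have : (c : ℤ) ≤ m := by omega
        exact_mod_cast this
      refine ⟨c, hc, hcm, (ih (m - c)).2 ⟨x, hx, ?_⟩⟩
      push_cast [Nat.cast_sub hcm]
      omega

/-- the number of codes is a population count -/
theorem ncard_codes {L : List (Fin 9 × Fin 9)} (hW : Fits G W D) (hL : Lists G L) (k : ℕ)
    (hk : 2 * k * D < 2329600) :
    (zcode W D k '' ball G k).ncard = pop (mask W D L k) := by
  rw [pop_eq]
  have hinj : Set.InjOn Int.toNat (zcode W D k '' ball G k) := by
    rintro _ ⟨x, hx, rfl⟩ _ ⟨y, hy, rfl⟩ hxy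
    have h1 := (zcode_bound hW k x hx).1
    have h2 := (zcode_bound hW k y hy).1
    omega
  rw [← hinj.ncard_image]
  have himg : Int.toNat '' (zcode W D k '' ball G k)
      = ((Finset.range (32 * 72800)).filter (fun m => (mask W D L k).testBit m = true) :
        Finset ℕ) := by
    ext m
    rw [Set.mem_image, Finset.mem_coe, Finset.mem_filter, Finset.mem_range,
      testBit_mask hW hL]
    constructor
    · rintro ⟨_, ⟨x, hx, rfl⟩, rfl⟩
      have h1 := zcode_bound hW k x hx
      refine ⟨?_, x, hx, by omega⟩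
      have h3 : 2 * (k : ℤ) * D < 2329600 := by exact_mod_cast hk
      omega
    · rintro ⟨_, x, hx, hm⟩
      exact ⟨_, ⟨x, hx, rfl⟩, by rw [hm]; simp⟩
  rw [himg, Set.ncard_coe_finset]

/-! ### injectivity of the code, from counts -/

/-- the refined weights, which also record the coordinate `i` -/
def refW (W : Fin 9 → ℕ) (i : Fin 9) : Fin 9 → ℕ := fun j => 9 * W j + if j = i then 1 else 0

theorem fits_refW (hW : Fits G W D) (i : Fin 9) : Fits G (refW W i) (9 * D + 1) := by
  intro a b hab
  have := hW a b hab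
  unfold refW
  split_ifs <;> omega

theorem zcode_refW (i : Fin 9) (x : Fin 9 → ℤ) :
    zcode (refW W i) (9 * D + 1) 4 x = 9 * zcode W D 4 x + (x i + 4) := by
  unfold zcode refW
  push_cast
  simp only [mul_add, Finset.sum_add_distrib, mul_ite, mul_one, mul_zero, Finset.sum_ite_eq',
    Finset.mem_univ, if_true]
  rw [Finset.mul_sum]
  have : ∑ j, x j * (9 * (W j : ℤ)) = ∑ j, 9 * (x j * (W j : ℤ)) :=
    Finset.sum_congr rfl (fun j _ => by ring)
  rw [this]
  ring

/-- if every refined code takes as many values as the code, then the code is injective -/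
theorem zcode_injOn {N : ℕ} (h0 : (zcode W D 4 '' ball G 4).ncard = N)
    (h1 : ∀ i, (zcode (refW W i) (9 * D + 1) 4 '' ball G 4).ncard = N) :
    Set.InjOn (zcode W D 4) (ball G 4) := by
  intro x hx y hy hxy
  ext i
  set S := zcode (refW W i) (9 * D + 1) 4 '' ball G 4 with hS
  have hfin : S.Finite := (ball_finite 4).image _
  have himg : (fun q : ℤ => q / 9) '' S = zcode W D 4 '' ball G 4 := by
    rw [hS, Set.image_image]
    apply Set.image_congr
    intro z hz
    have hb := ball_bound 4 z hz i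
    rw [zcode_refW]
    push_cast at hb
    omega
  have hinj : Set.InjOn (fun q : ℤ => q / 9) S := by
    apply Set.injOn_of_ncard_image_eq _ hfin
    rw [himg, h0, hS, h1 i]
  have hmx : zcode (refW W i) (9 * D + 1) 4 x ∈ S := ⟨x, hx, rfl⟩
  have hmy : zcode (refW W i) (9 * D + 1) 4 y ∈ S := ⟨y, hy, rfl⟩
  have hbx := ball_bound 4 x hx i
  have hby := ball_bound 4 y hy i
  have heq : zcode (refW W i) (9 * D + 1) 4 x = zcode (refW W i) (9 * D + 1) 4 y := by
    apply hinj hmx hmy
    simp only [zcode_refW]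
    push_cast at hbx hby
    omega
  rw [zcode_refW, zcode_refW, hxy] at heq
  omega

/-- the counts for a subgraph, from the injectivity on the level four ball of the graph -/
theorem ncard_ball {H : SimpleGraph (Fin 9)} (hHG : H ≤ G) {L : List (Fin 9 × Fin 9)}
    (hW : Fits G W D) (hinj : Set.InjOn (zcode W D 4) (ball G 4)) (hL : Lists H L)
    (hD : 2 * 4 * D < 2329600) (k : ℕ) (hk : k ≤ 4) :
    (ball H k).ncard = pop (mask W D L k) := by
  have hWH : Fits H W D := fun i j hij => hW i j (hHG hij)
  have hk2 : 2 * k * D < 2329600 := by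
    calc 2 * k * D ≤ 2 * 4 * D := by gcongr
      _ < 2329600 := hD
  rw [← ncard_codes hWH hL k hk2]
  symm
  apply Set.InjOn.ncard_image
  intro x hx y hy hxy
  apply hinj (ball_mono hHG hk hx) (ball_mono hHG hk hy)
  unfold zcode at hxy ⊢
  omega

end Pool.Agent.Q260.Sep
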