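import Mathlib
import Pool.Agent.Q260.Sep.Mask

/-!
The graph on nine vertices, its edge deletions, and the fourth gamma coefficient in terms of
lattice point counts.
-/

set_option autoImplicit false

namespace Pool.Agent.Q260.Sep

/-- the edge list of the clique blow-up of the five-cycle with class sizes 1, 3, 1, 2, 2 -/
def edges9 : List (Fin 9 × Fin 9) :=
  [(0, 1), (0, 2), (0, 3), (1, 2), (1, 3), (2, 3), (1, 4), (2, 4), (3, 4), (4, 5), (4, 6),
    (5, 6), (5, 7), (5, 8), (6, 7), (6, 8), (7, 8), (0, 7), (0, 8)]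

/-- the list with one edge removed -/
def rem (p : Fin 9 × Fin 9) : List (Fin 9 × Fin 9) := edges9.filter (fun q => !(q == p))

/-- weights of the vertices -/
def W9 : Fin 9 → ℕ := ![31625, 0, 25295, 4656, 16688, 8841, 40810, 8466, 40594]

/-- the largest difference of weights along an edge -/
def D9 : ℕ := 32344

/-- the numerical check -/
def chk (L : List (Fin 9 × Fin 9)) (v : ℕ) : Bool :=
  Nat.beq (pop (mask W9 D9 L 4) + 56 * pop (mask W9 D9 L 2) + 386)
    (11 * pop (mask W9 D9 L 3) + 176 * pop (mask W9 D9 L 1) + v)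

/-- the graph -/
def G9 : SimpleGraph (Fin 9) where
  Adj i j := (i, j) ∈ edges9 ∨ (j, i) ∈ edges9
  symm := ⟨fun _ _ h => Or.symm h⟩
  loopless := ⟨by decide⟩

theorem lists_G9 : Lists G9 edges9 := fun _ _ => Iff.rfl

theorem rem_spec : ∀ p ∈ edges9, ∀ i j : Fin 9,
    ((((i, j) ∈ edges9 ∨ (j, i) ∈ edges9) ∧ ¬ ((i = p.1 ∧ j = p.2) ∨ (i = p.2 ∧ j = p.1))) ↔
      ((i, j) ∈ rem p ∨ (j, i) ∈ rem p)) := by
  decide +kernel

theorem lists_delete (p : Fin 9 × Fin 9) (hp : p ∈ edges9) :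
    Lists (G9.deleteEdges {s(p.1, p.2)}) (rem p) := by
  intro i j
  rw [SimpleGraph.deleteEdges_adj, ← rem_spec p hp i j]
  apply and_congr Iff.rfl
  rw [Set.mem_singleton_iff, Sym2.eq_iff]

/-! ### connectivity -/

theorem conn_of_path {V : Type*} (H : SimpleGraph V) {m : ℕ} (f : Fin (m + 1) → V)
    (hs : Function.Surjective f) (ha : ∀ i : Fin m, H.Adj (f i.castSucc) (f i.succ)) :
    H.Connected := by
  have hr : ∀ i : Fin (m + 1), H.Reachable (f 0) (f i) := by
    intro i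
    induction i using Fin.induction with
    | zero => exact SimpleGraph.Reachable.refl _
    | succ i ih => exact ih.trans (ha i).reachable
  have : Nonempty V := ⟨f 0⟩
  refine ⟨?_⟩
  intro a b
  obtain ⟨i, rfl⟩ := hs a
  obtain ⟨j, rfl⟩ := hs b
  exact (hr i).symm.trans (hr j)

/-- cyclic order starting after `v` -/
def cyc (v : Fin 9) (i : Fin 8) : Fin 9 := v + 1 + i.castSucc

theorem cyc_ne : ∀ v i, cyc v i ≠ v := by decide

theorem cyc_surj : ∀ v w : Fin 9, w ≠ v → ∃ i, cyc v i = w := by decide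

theorem cyc_adj : ∀ (v : Fin 9) (i : Fin 7),
    (cyc v i.castSucc, cyc v i.succ) ∈ edges9 ∨ (cyc v i.succ, cyc v i.castSucc) ∈ edges9 := by
  decide

theorem twoConnected_G9 : TwoConnected G9 := by
  refine ⟨by norm_num, ?_, ?_⟩
  · refine conn_of_path G9 (m := 8) id Function.surjective_id ?_
    have : ∀ i : Fin 8, (i.castSucc, i.succ) ∈ edges9 ∨ (i.succ, i.castSucc) ∈ edges9 := by
      decide
    exact this
  · intro v
    refine conn_of_path _ (m := 7) (fun i => ⟨cyc v i, cyc_ne v i⟩) ?_ ?_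
    · rintro ⟨w, hw⟩
      obtain ⟨i, hi⟩ := cyc_surj v w hw
      exact ⟨i, Subtype.ext hi⟩
    · intro i
      exact cyc_adj v i

/-! ### the fourth gamma coefficient -/

theorem gammaCoeff_four (h : ℕ → ℤ) :
    gammaCoeff 8 h 4 = h 4 - 2 * h 3 + 2 * h 2 - 2 * h 1 + 2 * h 0 := by
  have c86 : Nat.choose 8 4 = 70 := rfl
  have g0 : gammaCoeff 8 h 0 = h 0 := by
    rw [gammaCoeff]; simp
  have g1 : gammaCoeff 8 h 1 = h 1 - 8 * h 0 := by
    rw [gammaCoeff]; simp [g0]; ring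
  have g2 : gammaCoeff 8 h 2 = h 2 - 6 * h 1 + 20 * h 0 := by
    rw [gammaCoeff]; simp [Fin.sum_univ_succ, g0, g1, Nat.choose]; ring
  have g3 : gammaCoeff 8 h 3 = h 3 - 4 * h 2 + 9 * h 1 - 16 * h 0 := by
    rw [gammaCoeff]; simp [Fin.sum_univ_succ, g0, g1, g2, Nat.choose]; ring
  rw [gammaCoeff]; simp [Fin.sum_univ_succ, g0, g1, g2, g3, Nat.choose]; ring

theorem coeff_zero_one_sub (F : PowerSeries ℤ) :
    PowerSeries.coeff 0 ((1 - PowerSeries.X) * F) = PowerSeries.coeff 0 F := by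
  rw [sub_mul, one_mul, map_sub]
  simp

theorem coeff_succ_one_sub (F : PowerSeries ℤ) (m : ℕ) :
    PowerSeries.coeff (m + 1) ((1 - PowerSeries.X) * F)
      = PowerSeries.coeff (m + 1) F - PowerSeries.coeff m F := by
  rw [sub_mul, one_mul, map_sub, PowerSeries.coeff_succ_X_mul]

theorem coeff_hstar (f : ℕ → ℤ) :
    (PowerSeries.coeff 0 ((1 - PowerSeries.X) ^ 9 * PowerSeries.mk f) = f 0) ∧
    (PowerSeries.coeff 1 ((1 - PowerSeries.X) ^ 9 * PowerSeries.mk f) = f 1 - 9 * f 0) ∧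
    (PowerSeries.coeff 2 ((1 - PowerSeries.X) ^ 9 * PowerSeries.mk f)
      = f 2 - 9 * f 1 + 36 * f 0) ∧
    (PowerSeries.coeff 3 ((1 - PowerSeries.X) ^ 9 * PowerSeries.mk f)
      = f 3 - 9 * f 2 + 36 * f 1 - 84 * f 0) ∧
    (PowerSeries.coeff 4 ((1 - PowerSeries.X) ^ 9 * PowerSeries.mk f)
      = f 4 - 9 * f 3 + 36 * f 2 - 84 * f 1 + 126 * f 0) := by
  have e1 := fun F => coeff_succ_one_sub F 0
  have e2 := fun F => coeff_succ_one_sub F 1
  have e3 := fun F => coeff_succ_one_sub F 2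
  have e4 := fun F => coeff_succ_one_sub F 3
  norm_num only at e1 e2 e3 e4
  simp only [pow_succ' (1 - PowerSeries.X : PowerSeries ℤ), pow_zero, mul_one, mul_assoc,
    coeff_zero_one_sub, e1, e2, e3, e4, PowerSeries.coeff_mk]
  refine ⟨trivial, ?_, ?_, ?_, ?_⟩ <;> ring

theorem gammaSep_four (G : SimpleGraph (Fin 9)) :
    gammaSep G 4 = latticePoints G 4 - 11 * latticePoints G 3 + 56 * latticePoints G 2
      - 176 * latticePoints G 1 + 386 * latticePoints G 0 := by
  obtain ⟨h0, h1, h2, h3, h4⟩ := coeff_hstar (fun k => (latticePoints G k : ℤ))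
  unfold gammaSep
  show gammaCoeff 8 _ 4 = _
  rw [gammaCoeff_four]
  unfold hstar
  rw [h0, h1, h2, h3, h4]
  ring

theorem pop_mask_zero (L : List (Fin 9 × Fin 9)) : pop (mask W9 D9 L 0) = 1 := by
  rw [mask]
  decide +kernel

theorem fits_G9 : Fits G9 W9 D9 := by
  have h : ∀ i j : Fin 9, ((i, j) ∈ edges9 ∨ (j, i) ∈ edges9) → W9 j ≤ D9 + W9 i := by
    decide
  exact h

theorem le_G9 (p : Fin 9 × Fin 9) : G9.deleteEdges {s(p.1, p.2)} ≤ G9 :=
  SimpleGraph.deleteEdges_le _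

theorem gammaSep_of_chk (hinj : Set.InjOn (zcode W9 D9 4) (ball G9 4))
    (H : SimpleGraph (Fin 9)) (hHG : H ≤ G9) (hH : ∃ i j, H.Adj i j)
    (L : List (Fin 9 × Fin 9)) (hL : Lists H L) (v : ℕ) (h : chk L v = true) :
    gammaSep H 4 = v := by
  have hb := ncard_ball hHG fits_G9 hinj hL (by norm_num [D9])
  rw [gammaSep_four]
  simp only [latticePoints_eq H hH]
  rw [hb 4 (by norm_num), hb 3 (by norm_num), hb 2 (by norm_num),
    hb 1 (by norm_num), hb 0 (by norm_num), pop_mask_zero]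
  unfold chk at h
  have h' := Nat.eq_of_beq_eq_true h
  generalize pop (mask W9 D9 L 4) = a at *
  generalize pop (mask W9 D9 L 3) = b at *
  generalize pop (mask W9 D9 L 2) = c at *
  generalize pop (mask W9 D9 L 1) = d at *
  push_cast
  omega

end Pool.Agent.Q260.Sep
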