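import Mathlib
import Pool.Agent.Q260.Sep.Core

/-!
Kernel evaluation of the lattice point counts.
-/

set_option autoImplicit false

namespace Pool.Agent.Q260.Sep

theorem cnt_base : pop (mask W9 D9 edges9 4) = 33595 := by decide +kernel

theorem cnt_0 : pop (mask (refW W9 0) (9 * D9 + 1) edges9 4) = 33595 := by decide +kernel

theorem cnt_1 : pop (mask (refW W9 1) (9 * D9 + 1) edges9 4) = 33595 := by decide +kernel

theorem cnt_2 : pop (mask (refW W9 2) (9 * D9 + 1) edges9 4) = 33595 := by decide +kernel

theorem cnt_3 : pop (mask (refW W9 3) (9 * D9 + 1) edges9 4) = 33595 := by decide +kernel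

theorem cnt_4 : pop (mask (refW W9 4) (9 * D9 + 1) edges9 4) = 33595 := by decide +kernel

theorem cnt_5 : pop (mask (refW W9 5) (9 * D9 + 1) edges9 4) = 33595 := by decide +kernel

theorem cnt_6 : pop (mask (refW W9 6) (9 * D9 + 1) edges9 4) = 33595 := by decide +kernel

theorem cnt_7 : pop (mask (refW W9 7) (9 * D9 + 1) edges9 4) = 33595 := by decide +kernel

theorem cnt_8 : pop (mask (refW W9 8) (9 * D9 + 1) edges9 4) = 33595 := by decide +kernel

theorem chk_g : chk edges9 36 = true := by decide +kernel

theorem chk_e01 : chk (rem (0, 1)) 38 = true := by decide +kernel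

theorem chk_e02 : chk (rem (0, 2)) 38 = true := by decide +kernel

theorem chk_e03 : chk (rem (0, 3)) 38 = true := by decide +kernel

theorem chk_e12 : chk (rem (1, 2)) 36 = true := by decide +kernel

theorem chk_e13 : chk (rem (1, 3)) 36 = true := by decide +kernel

theorem chk_e23 : chk (rem (2, 3)) 36 = true := by decide +kernel

theorem chk_e14 : chk (rem (1, 4)) 38 = true := by decide +kernel

theorem chk_e24 : chk (rem (2, 4)) 38 = true := by decide +kernel

theorem chk_e34 : chk (rem (3, 4)) 38 = true := by decide +kernel

theorem chk_e45 : chk (rem (4, 5)) 36 = true := by decide +kernel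

theorem chk_e46 : chk (rem (4, 6)) 36 = true := by decide +kernel

theorem chk_e56 : chk (rem (5, 6)) 36 = true := by decide +kernel

theorem chk_e57 : chk (rem (5, 7)) 36 = true := by decide +kernel

theorem chk_e58 : chk (rem (5, 8)) 36 = true := by decide +kernel

theorem chk_e67 : chk (rem (6, 7)) 36 = true := by decide +kernel

theorem chk_e68 : chk (rem (6, 8)) 36 = true := by decide +kernel

theorem chk_e78 : chk (rem (7, 8)) 36 = true := by decide +kernel

theorem chk_e07 : chk (rem (0, 7)) 36 = true := by decide +kernel

theorem chk_e08 : chk (rem (0, 8)) 36 = true := by decide +kernel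

theorem injOn_G9 : Set.InjOn (zcode W9 D9 4) (ball G9 4) := by
  apply zcode_injOn (N := 33595)
  · rw [ncard_codes fits_G9 lists_G9 4 (by norm_num [D9]), cnt_base]
  · intro i
    rw [ncard_codes (fits_refW fits_G9 i) lists_G9 4 (by norm_num [D9])]
    fin_cases i
    · exact cnt_0
    · exact cnt_1
    · exact cnt_2
    · exact cnt_3
    · exact cnt_4
    · exact cnt_5
    · exact cnt_6
    · exact cnt_7
    · exact cnt_8

end Pool.Agent.Q260.Sep
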